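import Mathlib

set_option autoImplicit false

/-!
Weak KAM theory on the torus `𝕋ⁿ = ℝⁿ/ℤⁿ`: definitions.

Functions on the torus are represented by `ℤⁿ`-periodic functions on `ℝⁿ`, subsets of the torus by
`ℤⁿ`-periodic subsets of `ℝⁿ`.
-/

namespace Pool.Agent.W_MP_e5a79a_an

open MeasureTheory Filter Topology

/-- Euclidean space `ℝⁿ`. -/
abbrev Eu (n : ℕ) : Type := EuclideanSpace ℝ (Fin n)

/-- The vector of `ℤⁿ ⊆ ℝⁿ` with integer coordinates `k`. -/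
noncomputable def latt {n : ℕ} (k : Fin n → ℤ) : Eu n := WithLp.toLp 2 fun i => (k i : ℝ)

/-- `v` is `ℤⁿ`-periodic, that is, a function on the torus `ℝⁿ/ℤⁿ`. -/
def IsPeriodic {n : ℕ} (v : Eu n → ℝ) : Prop :=
  ∀ (x : Eu n) (k : Fin n → ℤ), v (x + latt k) = v x

/-- `H(x,p)` is a (smooth) Tonelli Hamiltonian on `𝕋ⁿ × ℝⁿ`: periodic in `x`, of class `C^∞`, with
positive definite second derivative in `p`, and uniformly superlinear in `p`. -/
structure IsTonelli {n : ℕ} (H : Eu n → Eu n → ℝ) : Prop where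
  periodic : ∀ p : Eu n, IsPeriodic fun x => H x p
  smooth : ContDiff ℝ (⊤ : ℕ∞) fun z : Eu n × Eu n => H z.1 z.2
  hessian_pos : ∀ x p v : Eu n, v ≠ 0 → 0 < iteratedDeriv 2 (fun t : ℝ => H x (p + t • v)) 0
  superlinear : ∀ A : ℝ, ∃ C : ℝ, ∀ x p : Eu n, A * ‖p‖ - C ≤ H x p

/-- `H_c(x,p) = H(x, p - c)`. -/
def twist {n : ℕ} (H : Eu n → Eu n → ℝ) (c : Eu n) : Eu n → Eu n → ℝ := fun x p => H x (p - c)

/-- `v : 𝕋ⁿ → ℝ` is a viscosity solution of `G(x, Dv(x)) = k`. -/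
structure IsViscositySolution {n : ℕ} (G : Eu n → Eu n → ℝ) (k : ℝ) (v : Eu n → ℝ) : Prop where
  continuous : Continuous v
  periodic : IsPeriodic v
  sub : ∀ φ : Eu n → ℝ, ContDiff ℝ 1 φ → ∀ x : Eu n,
    IsLocalMax (fun y => v y - φ y) x → G x (gradient φ x) ≤ k
  super : ∀ φ : Eu n → ℝ, ContDiff ℝ 1 φ → ∀ x : Eu n,
    IsLocalMin (fun y => v y - φ y) x → k ≤ G x (gradient φ x)

/-- `a` is the critical value of `G`: the unique constant `k` for which `G(x, Dv(x)) = k` has a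
viscosity solution `v : 𝕋ⁿ → ℝ`. -/
def IsCriticalValue {n : ℕ} (G : Eu n → Eu n → ℝ) (a : ℝ) : Prop :=
  ∀ k : ℝ, (∃ v : Eu n → ℝ, IsViscositySolution G k v) ↔ k = a

/-- The Lagrangian Legendre-dual to the Hamiltonian `G`. -/
noncomputable def lagrangian {n : ℕ} (G : Eu n → Eu n → ℝ) (x q : Eu n) : ℝ :=
  ⨆ p : Eu n, (inner ℝ p q - G x p)

/-- `γ : [0,t] → 𝕋ⁿ` (lifted to `ℝⁿ`) is an absolutely continuous curve from `x` to `y` on the
torus, along which the Lagrangian is integrable. -/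
structure IsAdmissible {n : ℕ} (G : Eu n → Eu n → ℝ) (t : ℝ) (x y : Eu n) (γ : ℝ → Eu n) :
    Prop where
  ac : AbsolutelyContinuousOnInterval γ 0 t
  start : γ 0 = x
  finish : ∃ k : Fin n → ℤ, γ t = y + latt k
  integrable : IntervalIntegrable (fun s => lagrangian G (γ s) (deriv γ s)) volume 0 t

/-- The infimum of the action `∫₀ᵗ (L(γ,γ') + a) ds` over all curves `γ : [0,t] → 𝕋ⁿ` from `x` to
`y`. -/
noncomputable def minAction {n : ℕ} (G : Eu n → Eu n → ℝ) (a t : ℝ) (x y : Eu n) : EReal :=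
  ⨅ (γ : ℝ → Eu n) (_ : IsAdmissible G t x y γ),
    ((∫ s in (0 : ℝ)..t, (lagrangian G (γ s) (deriv γ s) + a) : ℝ) : EReal)

/-- The Peierls barrier `h(x,y)`. -/
noncomputable def peierls {n : ℕ} (G : Eu n → Eu n → ℝ) (a : ℝ) (x y : Eu n) : EReal :=
  liminf (fun t : ℝ => minAction G a t x y) atTop

/-- The projected Aubry set of `G` with critical value `a` (lifted to `ℝⁿ`). -/
def aubry {n : ℕ} (G : Eu n → Eu n → ℝ) (a : ℝ) : Set (Eu n) := {x | peierls G a x x = 0}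

/-- The distance on `𝕋ⁿ`. -/
noncomputable def torusDist {n : ℕ} (x y : Eu n) : ℝ := ⨅ k : Fin n → ℤ, ‖x - y + latt k‖

/-- `‖f‖_{Lip(K)} = sup_K |f| + sup_{x ≠ y ∈ K} |f(x) - f(y)| / d(x,y)`. -/
noncomputable def lipNorm {n : ℕ} (K : Set (Eu n)) (f : Eu n → Eu n) : ENNReal :=
  (⨆ x ∈ K, ‖f x‖ₑ) +
    ⨆ (x ∈ K) (y ∈ K) (_ : ∀ k : Fin n → ℤ, x ≠ y + latt k),
      ‖f x - f y‖ₑ / ENNReal.ofReal (torusDist x y)

end Pool.Agent.W_MP_e5a79a_an
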