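import Mathlib

set_option autoImplicit false

/-!
One-dimensional functions: the momentum of the pendulum at energy `E ≥ 0`.
-/

namespace Pool.Agent.W_MP_e5a79a_an

open MeasureTheory Filter Topology

/-- momentum of the pendulum at energy `E` -/
noncomputable def aE (E s : ℝ) : ℝ := Real.sqrt (2 * E + 4 * (Real.sin (Real.pi * s)) ^ 2)

lemma continuous_aE (E : ℝ) : Continuous (aE E) := by
  unfold aE
  fun_prop

lemma aE_nonneg (E s : ℝ) : 0 ≤ aE E s := Real.sqrt_nonneg _

lemma aE_sq {E : ℝ} (hE : 0 ≤ E) (s : ℝ) :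
    (aE E s) ^ 2 = 2 * E + 4 * (Real.sin (Real.pi * s)) ^ 2 := by
  unfold aE
  rw [Real.sq_sqrt]
  positivity

lemma aE_periodic (E : ℝ) : Function.Periodic (aE E) 1 := by
  intro s
  unfold aE
  rw [mul_add, mul_one, Real.sin_add_pi, neg_sq]

lemma aE_add_int (E s : ℝ) (k : ℤ) : aE E (s + k) = aE E s := by
  have := (aE_periodic E).int_mul k s
  simpa using this

lemma aE_le {E : ℝ} (_hE : 0 ≤ E) (s : ℝ) : aE E s ≤ Real.sqrt (2 * E + 4) := by
  unfold aE
  apply Real.sqrt_le_sqrt
  have := Real.sin_sq_le_one (Real.pi * s)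
  linarith

lemma aE_zero (s : ℝ) : aE 0 s = 2 * |Real.sin (Real.pi * s)| := by
  unfold aE
  rw [mul_zero, zero_add, show (4 : ℝ) * (Real.sin (Real.pi * s)) ^ 2 =
    (2 * Real.sin (Real.pi * s)) ^ 2 by ring, Real.sqrt_sq_eq_abs, abs_mul, abs_two]

lemma aE_mono {E E' : ℝ} (h : E ≤ E') (s : ℝ) : aE E s ≤ aE E' s := by
  unfold aE
  apply Real.sqrt_le_sqrt
  linarith

lemma aE_lt {E E' : ℝ} (h0 : 0 ≤ E) (h : E < E') (s : ℝ) : aE E s < aE E' s := by
  unfold aE
  apply Real.sqrt_lt_sqrt
  · positivity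
  · linarith

lemma aE_le_add {E : ℝ} (hE : 0 ≤ E) (s : ℝ) : aE E s ≤ aE 0 s + Real.sqrt (2 * E) := by
  have h1 := aE_nonneg 0 s
  have h2 := Real.sqrt_nonneg (2 * E)
  have h3 := aE_sq le_rfl s
  have h4 : Real.sqrt (2 * E) ^ 2 = 2 * E := Real.sq_sqrt (by positivity)
  have h5 := aE_sq hE s
  refine abs_le_of_sq_le_sq' ?_ (by positivity) |>.2
  nlinarith [mul_nonneg h1 h2]

lemma intervalIntegrable_aE (E x y : ℝ) : IntervalIntegrable (aE E) volume x y :=
  (continuous_aE E).intervalIntegrable _ _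

/-- primitive of the momentum -/
noncomputable def Phi (E s : ℝ) : ℝ := ∫ r in (0 : ℝ)..s, aE E r

/-- the rotation integral -/
noncomputable def II (E : ℝ) : ℝ := ∫ r in (0 : ℝ)..1, aE E r

lemma hasDerivAt_Phi (E s : ℝ) : HasDerivAt (Phi E) (aE E s) s :=
  ((continuous_aE E).integral_hasStrictDerivAt 0 s).hasDerivAt

lemma Phi_add_int (E s : ℝ) (k : ℤ) : Phi E (s + k) = Phi E s + k * II E := by
  unfold Phi II
  have h1 := intervalIntegral.integral_add_adjacent_intervals
    (intervalIntegrable_aE E 0 s) (intervalIntegrable_aE E s (s + k))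
  have h2 := (aE_periodic E).intervalIntegral_add_zsmul_eq k s (fun _ _ =>
    intervalIntegrable_aE E _ _)
  have h3 := (aE_periodic E).intervalIntegral_add_eq s 0
  rw [← h1]
  simp only [zsmul_eq_mul, mul_one, zero_add] at h2 h3
  rw [h2, h3]

lemma II_le {E : ℝ} (hE : 0 ≤ E) : II E ≤ II 0 + Real.sqrt (2 * E) := by
  unfold II
  have h1 : ∫ r in (0 : ℝ)..1, aE E r ≤ ∫ r in (0 : ℝ)..1, (aE 0 r + Real.sqrt (2 * E)) := by
    refine intervalIntegral.integral_mono_on zero_le_one (intervalIntegrable_aE E 0 1)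
      ((intervalIntegrable_aE 0 0 1).add intervalIntegrable_const) ?_
    intro x _
    exact aE_le_add hE x
  rw [intervalIntegral.integral_add (intervalIntegrable_aE 0 0 1) intervalIntegrable_const,
    intervalIntegral.integral_const] at h1
  simpa using h1

lemma II_lt {E : ℝ} (hE : 0 < E) : II 0 < II E := by
  unfold II
  refine intervalIntegral.integral_lt_integral_of_continuousOn_of_le_of_exists_lt zero_lt_one
    (continuous_aE 0).continuousOn (continuous_aE E).continuousOn
    (fun x _ => aE_mono hE.le x) ⟨0, by simp, aE_lt le_rfl hE 0⟩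

/-- time needed to travel with speed `aE + δ` -/
noncomputable def tau (E δ x y : ℝ) : ℝ := ∫ r in x..y, (aE E r + δ)⁻¹

section

variable {E δ : ℝ}

lemma continuous_inv_aE (hδ : 0 < δ) : Continuous fun r => (aE E r + δ)⁻¹ := by
  refine Continuous.inv₀ ((continuous_aE E).add continuous_const) fun r => ?_
  have := aE_nonneg E r
  positivity

lemma hasDerivAt_tau (hδ : 0 < δ) (x y : ℝ) :
    HasDerivAt (tau E δ x) (aE E y + δ)⁻¹ y :=
  ((continuous_inv_aE hδ).integral_hasStrictDerivAt x y).hasDerivAt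

lemma tau_self (x : ℝ) : tau E δ x x = 0 := by simp [tau]

lemma tau_strictMono (hδ : 0 < δ) (x : ℝ) : StrictMono (tau E δ x) := by
  refine strictMono_of_deriv_pos fun y => ?_
  rw [(hasDerivAt_tau hδ x y).deriv]
  have := aE_nonneg E y
  positivity

lemma tau_lower (hE : 0 ≤ E) (hδ : 0 < δ) {x y : ℝ} (h : x ≤ y) :
    (y - x) * (Real.sqrt (2 * E + 4) + δ)⁻¹ ≤ tau E δ x y := by
  have h1 : ∫ _ in x..y, (Real.sqrt (2 * E + 4) + δ)⁻¹ ≤ ∫ r in x..y, (aE E r + δ)⁻¹ := by
    refine intervalIntegral.integral_mono_on h intervalIntegrable_const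
      ((continuous_inv_aE hδ).intervalIntegrable _ _) ?_
    intro r _
    have h2 := aE_le hE r
    have h3 := aE_nonneg E r
    exact inv_anti₀ (by positivity) (by linarith)
  rwa [intervalIntegral.integral_const, smul_eq_mul] at h1

lemma tau_upper (hδ : 0 < δ) {x y : ℝ} (h : x ≤ y) :
    tau E δ x y ≤ (y - x) * δ⁻¹ := by
  have h1 : ∫ r in x..y, (aE E r + δ)⁻¹ ≤ ∫ _ in x..y, δ⁻¹ := by
    refine intervalIntegral.integral_mono_on h
      ((continuous_inv_aE hδ).intervalIntegrable _ _) intervalIntegrable_const ?_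
    intro r _
    have h3 := aE_nonneg E r
    exact inv_anti₀ hδ (by linarith)
  rwa [intervalIntegral.integral_const, smul_eq_mul] at h1

lemma tau_neg_upper (hE : 0 ≤ E) (hδ : 0 < δ) {x y : ℝ} (h : y ≤ x) :
    tau E δ x y ≤ (y - x) * (Real.sqrt (2 * E + 4) + δ)⁻¹ := by
  have h1 := tau_lower hE hδ h
  have h2 : tau E δ x y = - tau E δ y x := by
    unfold tau
    rw [intervalIntegral.integral_symm]
  rw [h2]
  linarith

lemma tau_surjective (hE : 0 ≤ E) (hδ : 0 < δ) (x : ℝ) : Function.Surjective (tau E δ x) := by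
  set B := Real.sqrt (2 * E + 4) + δ with hB
  have hBpos : 0 < B := by positivity
  have hcont : Continuous (tau E δ x) :=
    continuous_iff_continuousAt.2 fun y => (hasDerivAt_tau hδ x y).continuousAt
  intro t
  rcases le_total 0 t with ht | ht
  · have h1 : t ≤ tau E δ x (x + t * B) := by
      have := tau_lower hE hδ (x := x) (y := x + t * B) (by nlinarith)
      rw [← hB] at this
      have h2 : (x + t * B - x) * B⁻¹ = t := by
        field_simp
        ring
      linarith
    have h0 : tau E δ x x ≤ t := by rw [tau_self]; exact ht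
    obtain ⟨z, -, hz⟩ := intermediate_value_Icc (by nlinarith : x ≤ x + t * B)
      hcont.continuousOn ⟨h0, h1⟩
    exact ⟨z, hz⟩
  · have h1 : tau E δ x (x + t * B) ≤ t := by
      have := tau_neg_upper hE hδ (x := x) (y := x + t * B) (by nlinarith)
      rw [← hB] at this
      have h2 : (x + t * B - x) * B⁻¹ = t := by
        field_simp
        ring
      linarith
    have h0 : t ≤ tau E δ x x := by rw [tau_self]; exact ht
    obtain ⟨z, -, hz⟩ := intermediate_value_Icc (by nlinarith : x + t * B ≤ x)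
      hcont.continuousOn ⟨h1, h0⟩
    exact ⟨z, hz⟩

/-- Solutions of `g' = aE(g) + δ`. -/
lemma exists_flow (hE : 0 ≤ E) (hδ : 0 < δ) (x : ℝ) :
    ∃ g : ℝ → ℝ, (∀ t, HasDerivAt g (aE E (g t) + δ) t) ∧ g 0 = x ∧
      ∀ y, g (tau E δ x y) = y := by
  set e : ℝ ≃o ℝ := (tau_strictMono hδ x).orderIsoOfSurjective _ (tau_surjective hE hδ x) with he
  have he1 : ∀ y, e y = tau E δ x y := fun y => rfl
  refine ⟨e.symm, ?_, ?_, ?_⟩
  · intro t
    have h1 := hasDerivAt_tau (E := E) hδ x (e.symm t)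
    have hne : (aE E (e.symm t) + δ)⁻¹ ≠ 0 := by
      have := aE_nonneg E (e.symm t)
      positivity
    have h2 := HasDerivAt.of_local_left_inverse (f := tau E δ x) (g := e.symm) (a := t)
      e.symm.continuous.continuousAt h1 hne
      (Eventually.of_forall fun y => e.apply_symm_apply y)
    rwa [inv_inv] at h2
  · rw [← tau_self (E := E) (δ := δ) x, ← he1, e.symm_apply_apply]
  · intro y
    rw [← he1, e.symm_apply_apply]

end

end Pool.Agent.W_MP_e5a79a_an
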