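import Mathlib
import Pool.Agent.W_MP_e5a79a_an.Defs
import Pool.Agent.W_MP_e5a79a_an.OneD

set_option autoImplicit false

/-!
Viscosity solutions of the shifted pendulum equation: uniqueness up to constants.
-/

namespace Pool.Agent.W_MP_e5a79a_an

open MeasureTheory Filter Topology

variable {m : ℕ}

/-- first basis vector -/
noncomputable def e1 : Eu (m + 1) := EuclideanSpace.single 0 1

lemma e1_apply_zero : (e1 : Eu (m + 1)) 0 = 1 := by simp [e1]

lemma inner_e1_left (y : Eu (m + 1)) : inner ℝ e1 y = y 0 := by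
  simp [e1, EuclideanSpace.inner_single_left]

lemma inner_e1_right (y : Eu (m + 1)) : inner ℝ y e1 = y 0 := by
  rw [real_inner_comm, inner_e1_left]

lemma norm_e1 : ‖(e1 : Eu (m + 1))‖ = 1 := by simp [e1]

lemma add_smul_e1_zero (y : Eu (m + 1)) (t : ℝ) : (y + t • e1 : Eu (m + 1)) 0 = y 0 + t := by
  simp [e1_apply_zero]

/-- the Hamiltonian of the pendulum, shifted by `II E` in the first direction -/
noncomputable def GE (E : ℝ) (x p : Eu (m + 1)) : ℝ :=
  ‖p + II E • e1‖ ^ 2 / 2 - 2 * (Real.sin (Real.pi * x 0)) ^ 2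

/-- the classical solution -/
noncomputable def vE (E : ℝ) (x : Eu (m + 1)) : ℝ := Phi E (x 0) - II E * x 0

lemma hasGradientAt_coord {h : ℝ → ℝ} {h' : ℝ} {x : Eu (m + 1)} (hh : HasDerivAt h h' (x 0)) :
    HasGradientAt (fun y : Eu (m + 1) => h (y 0)) (h' • e1) x := by
  rw [hasGradientAt_iff_hasFDerivAt]
  have h1 : HasFDerivAt (fun y : Eu (m + 1) => y 0)
      (EuclideanSpace.proj (0 : Fin (m + 1)) : Eu (m + 1) →L[ℝ] ℝ) x :=
    (EuclideanSpace.proj (0 : Fin (m + 1)) : Eu (m + 1) →L[ℝ] ℝ).hasFDerivAt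
  have h2 := hh.comp_hasFDerivAt x h1
  refine h2.congr_fderiv ?_
  ext v
  simp [InnerProductSpace.toDual_apply_apply, inner_e1_left]

lemma hasDerivAt_profile (E s : ℝ) :
    HasDerivAt (fun s => Phi E s - II E * s) (aE E s - II E) s := by
  have h1 : HasDerivAt (fun s : ℝ => II E * s) (II E) s := by
    simpa using (hasDerivAt_id s).const_mul (II E)
  exact (hasDerivAt_Phi E s).fun_sub h1

lemma hasGradientAt_vE (E : ℝ) (x : Eu (m + 1)) :
    HasGradientAt (vE E) ((aE E (x 0) - II E) • e1) x := by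
  exact hasGradientAt_coord (hasDerivAt_profile E (x 0))

lemma gradient_vE (E : ℝ) (x : Eu (m + 1)) : gradient (vE E) x = (aE E (x 0) - II E) • e1 :=
  (hasGradientAt_vE E x).gradient

lemma contDiff_coord {h : ℝ → ℝ} {k : WithTop ℕ∞} (hh : ContDiff ℝ k h) :
    ContDiff ℝ k (fun y : Eu (m + 1) => h (y 0)) :=
  hh.comp (EuclideanSpace.proj (0 : Fin (m + 1)) : Eu (m + 1) →L[ℝ] ℝ).contDiff

lemma contDiff_vE (E : ℝ) : ContDiff ℝ 1 (vE E : Eu (m + 1) → ℝ) := by
  refine contDiff_coord (h := fun s => Phi E s - II E * s) ?_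
  have hd := hasDerivAt_profile E
  rw [contDiff_one_iff_deriv]
  refine ⟨fun s => (hd s).differentiableAt, ?_⟩
  have : deriv (fun s => Phi E s - II E * s) = fun s => aE E s - II E := by
    ext s
    exact (hd s).deriv
  rw [this]
  exact (continuous_aE E).sub continuous_const

lemma latt_zero (k : Fin (m + 1) → ℤ) : (latt k : Eu (m + 1)) 0 = k 0 := rfl

lemma vE_periodic (E : ℝ) : IsPeriodic (vE E : Eu (m + 1) → ℝ) := by
  intro x k
  unfold vE
  rw [PiLp.add_apply, latt_zero, Phi_add_int]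
  ring

lemma GE_vE {E : ℝ} (hE : 0 ≤ E) (x : Eu (m + 1)) : GE E x (gradient (vE E) x) = E := by
  unfold GE
  rw [gradient_vE, ← add_smul, norm_smul, norm_e1, mul_one, Real.norm_eq_abs, sq_abs,
    sub_add_cancel, aE_sq hE]
  ring

/-- the gradients of two functions with a local extremum of the difference agree -/
lemma gradient_eq_of_isLocalExtr {v φ : Eu (m + 1) → ℝ} {x : Eu (m + 1)}
    (hv : DifferentiableAt ℝ v x) (hφ : DifferentiableAt ℝ φ x)
    (h : IsLocalExtr (fun y => v y - φ y) x) : gradient φ x = gradient v x := by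
  have h1 := h.fderiv_eq_zero
  have h2 : fderiv ℝ (fun y => v y - φ y) x = fderiv ℝ v x - fderiv ℝ φ x := fderiv_fun_sub hv hφ
  rw [h2, sub_eq_zero] at h1
  unfold gradient
  rw [h1]

lemma isViscositySolution_vE {E : ℝ} (hE : 0 ≤ E) :
    IsViscositySolution (GE E) E (vE E : Eu (m + 1) → ℝ) := by
  have hd : ∀ x, DifferentiableAt ℝ (vE E : Eu (m + 1) → ℝ) x := fun x =>
    (contDiff_vE E).differentiable one_ne_zero x
  refine ⟨(contDiff_vE E).continuous, vE_periodic E, ?_, ?_⟩
  · intro φ hφ x hx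
    rw [gradient_eq_of_isLocalExtr (hd x) (hφ.differentiable one_ne_zero x) (Or.inr hx), GE_vE hE]
  · intro φ hφ x hx
    rw [gradient_eq_of_isLocalExtr (hd x) (hφ.differentiable one_ne_zero x) (Or.inl hx), GE_vE hE]

/-! ### periodic continuous functions attain their extrema -/

lemma exists_fract (x : Eu (m + 1)) : ∃ k : Fin (m + 1) → ℤ,
    x + latt k ∈ {y : Eu (m + 1) | ∀ i, y i ∈ Set.Icc (0 : ℝ) 1} := by
  refine ⟨fun i => -⌊x i⌋, fun i => ?_⟩
  have h1 : (x + latt fun i => -⌊x i⌋) i = x i - ⌊x i⌋ := by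
    rw [PiLp.add_apply]
    unfold latt
    push_cast
    ring
  rw [h1]
  exact ⟨by linarith [Int.floor_le (x i)], by linarith [Int.lt_floor_add_one (x i)]⟩

lemma isCompact_cube : IsCompact {y : Eu (m + 1) | ∀ i, y i ∈ Set.Icc (0 : ℝ) 1} := by
  have h1 : IsCompact (Set.univ.pi fun _ : Fin (m + 1) => Set.Icc (0 : ℝ) 1) :=
    isCompact_univ_pi fun _ => isCompact_Icc
  have h2 := h1.image (PiLp.continuous_toLp 2 (fun _ : Fin (m + 1) => ℝ))
  convert h2 using 1
  ext y
  constructor
  · intro hy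
    exact ⟨WithLp.ofLp y, fun i _ => hy i, rfl⟩
  · rintro ⟨z, hz, rfl⟩ i
    exact hz i (Set.mem_univ i)

lemma exists_forall_le_of_periodic {D : Eu (m + 1) → ℝ} (hD : Continuous D) (hp : IsPeriodic D) :
    ∃ x, ∀ y, D y ≤ D x := by
  obtain ⟨x, -, hx⟩ := isCompact_cube.exists_isMaxOn (f := D) ⟨0, fun i => by simp⟩
    hD.continuousOn
  refine ⟨x, fun y => ?_⟩
  obtain ⟨k, hk⟩ := exists_fract y
  rw [← hp y k]
  exact hx hk

lemma exists_forall_ge_of_periodic {D : Eu (m + 1) → ℝ} (hD : Continuous D) (hp : IsPeriodic D) :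
    ∃ x, ∀ y, D x ≤ D y := by
  obtain ⟨x, hx⟩ := exists_forall_le_of_periodic (D := fun y => - D y) hD.neg
    (fun y k => by simp only [hp y k])
  exact ⟨x, fun y => by linarith [hx y]⟩

/-- the critical value -/
lemma isCriticalValue_GE {E : ℝ} (hE : 0 ≤ E) :
    IsCriticalValue (GE E : Eu (m + 1) → Eu (m + 1) → ℝ) E := by
  intro k
  constructor
  · rintro ⟨w, hw⟩
    have hc : Continuous fun y => w y - vE E y := hw.continuous.sub (contDiff_vE E).continuous
    have hp : IsPeriodic fun y => w y - vE E y := fun y k => by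
      simp only [hw.periodic y k, vE_periodic E y k]
    obtain ⟨x, hx⟩ := exists_forall_le_of_periodic hc hp
    obtain ⟨x', hx'⟩ := exists_forall_ge_of_periodic hc hp
    have h1 := hw.sub (vE E) (contDiff_vE E) x (Eventually.of_forall hx)
    have h2 := hw.super (vE E) (contDiff_vE E) x' (Eventually.of_forall hx')
    rw [GE_vE hE] at h1 h2
    exact le_antisymm h2 h1
  · rintro rfl
    exact ⟨vE k, isViscositySolution_vE hE⟩

/-! ### uniqueness up to constants -/

lemma hasDerivAt_negsq (a s : ℝ) : HasDerivAt (fun s => -(s - a) ^ 2) (-(2 * (s - a))) s := by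
  have h1 : HasDerivAt (fun s : ℝ => (s - a) ^ 2) (2 * (s - a)) s := by
    have := ((hasDerivAt_id s).sub_const a).fun_pow 2
    simpa using this
  exact h1.fun_neg

/-- the subsolution property for `D = w - vE` -/
def Star (E : ℝ) (D : Eu (m + 1) → ℝ) : Prop :=
  ∀ (ψ : Eu (m + 1) → ℝ) (g : Eu (m + 1)) (y : Eu (m + 1)), ContDiff ℝ 1 ψ →
    HasGradientAt ψ g y → IsLocalMax (fun z => D z - ψ z) y →
    ‖(aE E (y 0)) • e1 + g‖ ^ 2 ≤ (aE E (y 0)) ^ 2

lemma hasGradientAt_add' {f g : Eu (m + 1) → ℝ} {f' g' x : Eu (m + 1)}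
    (hf : HasGradientAt f f' x) (hg : HasGradientAt g g' x) :
    HasGradientAt (fun y => f y + g y) (f' + g') x := by
  rw [hasGradientAt_iff_hasFDerivAt] at *
  rw [map_add]
  exact hf.add hg

lemma hasGradientAt_const_mul' {f : Eu (m + 1) → ℝ} {f' x : Eu (m + 1)} (c : ℝ)
    (hf : HasGradientAt f f' x) :
    HasGradientAt (fun y => c * f y) (c • f') x := by
  rw [hasGradientAt_iff_hasFDerivAt] at *
  refine (hf.const_mul c).congr_fderiv ?_
  ext v
  simp [InnerProductSpace.toDual_apply_apply]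

lemma hasGradientAt_norm_sub_sq (x y : Eu (m + 1)) :
    HasGradientAt (fun z => ‖z - x‖ ^ 2) ((2 : ℝ) • (y - x)) y := by
  rw [hasGradientAt_iff_hasFDerivAt]
  have h1 : HasFDerivAt (fun z : Eu (m + 1) => z - x) (ContinuousLinearMap.id ℝ _) y :=
    (hasFDerivAt_id y).sub_const x
  refine h1.norm_sq.congr_fderiv ?_
  ext v
  simp [InnerProductSpace.toDual_apply_apply, two_smul]

lemma star_of_sub {E : ℝ} (hE : 0 ≤ E) {w : Eu (m + 1) → ℝ}
    (hw : IsViscositySolution (GE E) E w) : Star E (fun y => w y - vE E y) := by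
  intro ψ g y hψ hg hmax
  have h1 := hw.sub (fun z => vE E z + ψ z) ((contDiff_vE E).add hψ) y (by
    have : (fun z => w z - (vE E z + ψ z)) = fun z => w z - vE E z - ψ z := by
      ext z
      ring
    rw [this]
    exact hmax)
  rw [(hasGradientAt_add' (hasGradientAt_vE E y) hg).gradient] at h1
  unfold GE at h1
  rw [aE_sq hE]
  have h2 : (aE E (y 0) - II E) • e1 + g + II E • e1 = (aE E (y 0)) • (e1 : Eu (m + 1)) + g := by
    rw [sub_smul]
    abel
  rw [h2] at h1
  linarith

/-- monotone in the first coordinate -/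
lemma star_mono {E : ℝ} {D : Eu (m + 1) → ℝ} (hD : Continuous D) {C : ℝ} (hC : ∀ x, |D x| ≤ C)
    (hstar : Star E D) (x : Eu (m + 1)) {τ : ℝ} (hτ : 0 < τ) : D (x + τ • e1) ≤ D x := by
  by_contra hcon
  rw [not_le] at hcon
  set gap := D (x + τ • e1) - D x with hgap
  have hgap0 : 0 < gap := by linarith
  set η := gap / (4 * τ) with hη
  have hη0 : 0 < η := by positivity
  have hητ : η * τ = gap / 4 := by
    rw [hη]
    field_simp
  have hC0 : 0 ≤ C := (abs_nonneg _).trans (hC x)
  -- continuity at x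
  obtain ⟨r, hr0, hr⟩ := Metric.continuousAt_iff.1 hD.continuousAt (gap / 4) (by positivity)
  set K := (2 * C + 1) / r ^ 2 with hK
  have hK0 : 0 < K := by positivity
  have hKr : K * r ^ 2 = 2 * C + 1 := by
    rw [hK]
    field_simp
  -- the test function
  set q : Eu (m + 1) → ℝ := fun y => ‖y - x‖ ^ 2 - (y 0 - x 0) ^ 2 with hq
  have hq0 : ∀ y, 0 ≤ q y := by
    intro y
    have h1 : |y 0 - x 0| ≤ ‖y - x‖ := by
      have := abs_real_inner_le_norm e1 (y - x)
      rw [inner_e1_left, norm_e1, one_mul] at this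
      simpa using this
    have h2 := sq_abs (y 0 - x 0)
    have h3 := abs_nonneg (y 0 - x 0)
    simp only [hq]
    nlinarith
  set ψ : Eu (m + 1) → ℝ := fun y => η * (y 0 - x 0) + K * q y with hψ
  set F : Eu (m + 1) → ℝ := fun y => D y - ψ y with hF
  have hqc : Continuous q := by
    simp only [hq]
    fun_prop
  have hψc : Continuous ψ := by
    simp only [hψ]
    fun_prop
  have hFc : Continuous F := hD.sub hψc
  -- value at the far point
  have hfar : F (x + τ • e1) = D x + 3 * gap / 4 := by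
    simp only [hF, hψ, hq]
    have h1 : ‖x + τ • e1 - x‖ ^ 2 = τ ^ 2 := by
      rw [add_sub_cancel_left, norm_smul, norm_e1, Real.norm_eq_abs, mul_one, sq_abs]
    rw [add_smul_e1_zero, add_sub_cancel_left, h1, sub_self, mul_zero, add_zero, hητ]
    linarith
  -- value on the boundary
  have hbd : ∀ y, y 0 = x 0 → F y ≤ D x + gap / 4 := by
    intro y hy
    have hqy : q y = ‖y - x‖ ^ 2 := by simp [hq, hy]
    have hFy : F y = D y - K * ‖y - x‖ ^ 2 := by simp [hF, hψ, hy, hqy]
    rw [hFy]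
    rcases lt_or_ge ‖y - x‖ r with h1 | h1
    · have h2 := hr (x := y) (by rwa [dist_eq_norm])
      rw [Real.dist_eq] at h2
      have h3 := (abs_lt.1 h2).2
      have h4 : 0 ≤ K * ‖y - x‖ ^ 2 := by positivity
      linarith
    · have h2 : r ^ 2 ≤ ‖y - x‖ ^ 2 := by
        have := norm_nonneg (y - x)
        nlinarith
      have h3 := mul_le_mul_of_nonneg_left h2 hK0.le
      have h4 := (abs_le.1 (hC y)).2
      have h5 := (abs_le.1 (hC x)).1
      linarith
  -- value far away
  set R := τ + 2 * ((2 * C + 1) / η) + 2 * r + 1 with hR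
  have hdiv : 0 < (2 * C + 1) / η := by positivity
  have hR0 : 0 < R := by positivity
  have hRη : 2 * C + 1 ≤ η * (R / 2) := by
    have h1 : (2 * C + 1) / η ≤ R / 2 := by linarith
    rw [div_le_iff₀ hη0] at h1
    linarith
  have hsph : ∀ y, x 0 ≤ y 0 → ‖y - x‖ = R → F y < D x := by
    intro y hy hyR
    have h4 := (abs_le.1 (hC y)).2
    have h5 := (abs_le.1 (hC x)).1
    have hψy : 2 * C + 1 ≤ ψ y := by
      rcases le_or_gt (R / 2) (y 0 - x 0) with h1 | h1
      · have h2 := mul_le_mul_of_nonneg_left h1 hη0.le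
        have h3 : 0 ≤ K * q y := mul_nonneg hK0.le (hq0 y)
        simp only [hψ]
        linarith
      · have h2 : r ^ 2 ≤ q y := by
          simp only [hq]
          rw [hyR]
          have h6 : (y 0 - x 0) ^ 2 ≤ (R / 2) ^ 2 := by
            have : 0 ≤ y 0 - x 0 := by linarith
            nlinarith
          have h7 : 2 * r ≤ R := by linarith
          nlinarith
        have h3 := mul_le_mul_of_nonneg_left h2 hK0.le
        have h8 : 0 ≤ η * (y 0 - x 0) := mul_nonneg hη0.le (by linarith)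
        simp only [hψ]
        linarith
    simp only [hF]
    linarith
  -- the maximum
  have hcpt : IsCompact (Metric.closedBall x R ∩ {y : Eu (m + 1) | x 0 ≤ y 0}) :=
    (isCompact_closedBall x R).inter_right (isClosed_le continuous_const (by fun_prop))
  have hmem : x + τ • e1 ∈ Metric.closedBall x R ∩ {y : Eu (m + 1) | x 0 ≤ y 0} := by
    refine ⟨?_, ?_⟩
    · rw [Metric.mem_closedBall, dist_eq_norm, add_sub_cancel_left, norm_smul, norm_e1,
        Real.norm_eq_abs, mul_one, abs_of_pos hτ]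
      linarith
    · change x 0 ≤ (x + τ • e1 : Eu (m + 1)) 0
      rw [add_smul_e1_zero]
      linarith
  obtain ⟨y, ⟨hyball, hyhalf⟩, hymax⟩ := hcpt.exists_isMaxOn ⟨_, hmem⟩ hFc.continuousOn
  have hge : F (x + τ • e1) ≤ F y := hymax hmem
  have hyhalf' : x 0 ≤ y 0 := hyhalf
  have hy1 : x 0 < y 0 := by
    refine lt_of_le_of_ne hyhalf' fun heq => ?_
    have := hbd y heq.symm
    linarith
  have hy2 : ‖y - x‖ < R := by
    rw [Metric.mem_closedBall, dist_eq_norm] at hyball
    refine lt_of_le_of_ne hyball fun heq => ?_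
    have := hsph y hyhalf' heq
    linarith
  have hloc : IsLocalMax (fun z => D z - ψ z) y := by
    have h1 : ∀ᶠ z in 𝓝 y, z ∈ Metric.ball x R :=
      Metric.isOpen_ball.mem_nhds (by rwa [Metric.mem_ball, dist_eq_norm])
    have h2 : ∀ᶠ z : Eu (m + 1) in 𝓝 y, x 0 < z 0 :=
      (isOpen_lt continuous_const (by fun_prop : Continuous fun z : Eu (m + 1) => z 0)).mem_nhds hy1
    filter_upwards [h1, h2] with z hz1 hz2
    exact hymax ⟨Metric.ball_subset_closedBall hz1, hz2.le⟩
  -- gradient of the test function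
  have hgrad : HasGradientAt ψ (η • e1 + K • ((2 : ℝ) • (y - x) + (-(2 * (y 0 - x 0))) • e1)) y := by
    have g1 : HasGradientAt (fun z : Eu (m + 1) => η * (z 0 - x 0)) (η • e1) y := by
      refine hasGradientAt_coord (h := fun s => η * (s - x 0)) ?_
      simpa using ((hasDerivAt_id (y 0)).sub_const (x 0)).const_mul η
    have g2 : HasGradientAt (fun z : Eu (m + 1) => -(z 0 - x 0) ^ 2)
        ((-(2 * (y 0 - x 0))) • e1) y := by
      refine hasGradientAt_coord (h := fun s => -(s - x 0) ^ 2) ?_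
      exact hasDerivAt_negsq _ _
    have g3 := hasGradientAt_add' (hasGradientAt_norm_sub_sq x y) g2
    have g4 := hasGradientAt_add' g1 (hasGradientAt_const_mul' K g3)
    exact g4
  have hψdiff : ContDiff ℝ 1 ψ := by
    simp only [hψ, hq]
    have c1 : ContDiff ℝ 1 (fun z : Eu (m + 1) => z 0) :=
      (EuclideanSpace.proj (0 : Fin (m + 1)) : Eu (m + 1) →L[ℝ] ℝ).contDiff
    have c2 : ContDiff ℝ 1 (fun z : Eu (m + 1) => ‖z - x‖ ^ 2) :=
      (contDiff_id.sub contDiff_const).norm_sq ℝ
    exact (contDiff_const.mul (c1.sub contDiff_const)).add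
      (contDiff_const.mul (c2.sub ((c1.sub contDiff_const).pow 2)))
  have hfinal := hstar ψ _ y hψdiff hgrad hloc
  -- inner product with e1
  set g := η • e1 + K • ((2 : ℝ) • (y - x) + (-(2 * (y 0 - x 0))) • (e1 : Eu (m + 1))) with hg
  have hin : inner ℝ e1 g = η := by
    rw [inner_e1_left, hg]
    simp [e1_apply_zero]
  have hexp : ‖(aE E (y 0)) • e1 + g‖ ^ 2 = (aE E (y 0)) ^ 2 + 2 * (aE E (y 0)) * η + ‖g‖ ^ 2 := by
    rw [norm_add_sq_real, inner_smul_left, hin, norm_smul, norm_e1]
    simp only [Real.norm_eq_abs, mul_one, sq_abs, conj_trivial]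
    ring
  rw [hexp] at hfinal
  have hgn : η ≤ ‖g‖ := by
    have := real_inner_le_norm e1 g
    rwa [hin, norm_e1, one_mul] at this
  have h1 := mul_nonneg (aE_nonneg E (y 0)) hη0.le
  nlinarith

/-- functions constant in the first direction with the `Star` property are constant -/
lemma star_const {E : ℝ} {D : Eu (m + 1) → ℝ} (hD : Continuous D) {C : ℝ} (hC : ∀ x, |D x| ≤ C)
    (hinv : ∀ (x : Eu (m + 1)) (τ : ℝ), D (x + τ • e1) = D x)
    (hstar : Star E D) (x z : Eu (m + 1)) : D z ≤ D x := by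
  have hC0 : 0 ≤ C := (abs_nonneg _).trans (hC x)
  set q : Eu (m + 1) → ℝ := fun y => ‖y - x‖ ^ 2 - (y 0 - x 0) ^ 2 with hq
  have hqinv : ∀ (y : Eu (m + 1)) (τ : ℝ), q (y + τ • e1) = q y := by
    intro y τ
    simp only [hq]
    rw [add_smul_e1_zero, add_sub_right_comm, norm_add_sq_real, inner_smul_right, inner_e1_right,
      norm_smul, norm_e1]
    simp only [Real.norm_eq_abs, mul_one, sq_abs, PiLp.sub_apply]
    ring
  have key : ∀ η : ℝ, 0 < η → D z ≤ D x + η * q z := by
    intro η hη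
    set F : Eu (m + 1) → ℝ := fun y => D y - η * q y with hF
    have hFinv : ∀ (y : Eu (m + 1)) (τ : ℝ), F (y + τ • e1) = F y := by
      intro y τ
      simp only [hF, hqinv, hinv]
    have hFc : Continuous F := by
      simp only [hF, hq]
      fun_prop
    set R := Real.sqrt ((2 * C + 1) / η) with hR
    have hR2 : η * R ^ 2 = 2 * C + 1 := by
      rw [hR, Real.sq_sqrt (by positivity)]
      field_simp
    have hcpt : IsCompact (Metric.closedBall x R ∩ {y : Eu (m + 1) | y 0 = x 0}) :=
      (isCompact_closedBall x R).inter_right (isClosed_eq (by fun_prop) continuous_const)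
    obtain ⟨y, ⟨hyball, hy0⟩, hymax⟩ := hcpt.exists_isMaxOn
      ⟨x, Metric.mem_closedBall_self (Real.sqrt_nonneg _), rfl⟩ hFc.continuousOn
    have hy0' : y 0 = x 0 := hy0
    have hFx : F x = D x := by simp [hF, hq]
    have hFxy : F x ≤ F y := hymax ⟨Metric.mem_closedBall_self (Real.sqrt_nonneg _), rfl⟩
    have hglob : ∀ z', F z' ≤ F y := by
      intro z'
      rw [← hFinv z' (x 0 - z' 0)]
      set z'' := z' + (x 0 - z' 0) • (e1 : Eu (m + 1)) with hz''
      have hz0 : z'' 0 = x 0 := by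
        rw [hz'', add_smul_e1_zero]
        ring
      rcases le_or_gt ‖z'' - x‖ R with h1 | h1
      · exact hymax ⟨by rwa [Metric.mem_closedBall, dist_eq_norm], hz0⟩
      · have hq'' : q z'' = ‖z'' - x‖ ^ 2 := by simp [hq, hz0]
        have h2 : R ^ 2 ≤ ‖z'' - x‖ ^ 2 := by
          have := Real.sqrt_nonneg ((2 * C + 1) / η)
          rw [← hR] at this
          nlinarith
        have h3 := mul_le_mul_of_nonneg_left h2 hη.le
        have h4 := (abs_le.1 (hC z'')).2
        have h5 := (abs_le.1 (hC x)).1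
        have h6 : F z'' = D z'' - η * ‖z'' - x‖ ^ 2 := by simp [hF, hq'']
        linarith
    have hloc : IsLocalMax (fun z => D z - η * q z) y := Eventually.of_forall hglob
    have hgrad : HasGradientAt (fun z => η * q z)
        (η • ((2 : ℝ) • (y - x) + (-(2 * (y 0 - x 0))) • e1)) y := by
      have g2 : HasGradientAt (fun z : Eu (m + 1) => -(z 0 - x 0) ^ 2)
          ((-(2 * (y 0 - x 0))) • e1) y := by
        refine hasGradientAt_coord (h := fun s => -(s - x 0) ^ 2) ?_
        exact hasDerivAt_negsq _ _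
      have g3 := hasGradientAt_add' (hasGradientAt_norm_sub_sq x y) g2
      exact hasGradientAt_const_mul' η g3
    have hψdiff : ContDiff ℝ 1 (fun z => η * q z) := by
      simp only [hq]
      have c1 : ContDiff ℝ 1 (fun z : Eu (m + 1) => z 0) :=
        (EuclideanSpace.proj (0 : Fin (m + 1)) : Eu (m + 1) →L[ℝ] ℝ).contDiff
      have c2 : ContDiff ℝ 1 (fun z : Eu (m + 1) => ‖z - x‖ ^ 2) :=
        (contDiff_id.sub contDiff_const).norm_sq ℝ
      exact contDiff_const.mul (c2.sub ((c1.sub contDiff_const).pow 2))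
    have hfinal := hstar _ _ y hψdiff hgrad hloc
    rw [hy0', sub_self, mul_zero, neg_zero, zero_smul, add_zero] at hfinal
    have hin : inner ℝ e1 (η • (2 : ℝ) • (y - x)) = 0 := by
      rw [inner_e1_left]
      simp [hy0']
    rw [norm_add_sq_real, inner_smul_left, hin, norm_smul, norm_e1] at hfinal
    simp only [Real.norm_eq_abs, mul_one, sq_abs, mul_zero, add_zero] at hfinal
    have h7 : ‖η • (2 : ℝ) • (y - x)‖ ^ 2 ≤ 0 := by linarith
    have h8 : η • (2 : ℝ) • (y - x) = 0 := by
      rw [← norm_eq_zero]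
      exact pow_eq_zero_iff two_ne_zero |>.1 (le_antisymm h7 (by positivity))
    have h9 : y = x := by
      rw [smul_eq_zero, smul_eq_zero] at h8
      rcases h8 with h8 | h8 | h8
      · exact absurd h8 hη.ne'
      · norm_num at h8
      · exact sub_eq_zero.1 h8
    have h10 := hglob z
    rw [h9, hFx] at h10
    simp only [hF] at h10
    linarith
  have hq0 : 0 ≤ q z := by
    have h1 : |z 0 - x 0| ≤ ‖z - x‖ := by
      have := abs_real_inner_le_norm e1 (z - x)
      rw [inner_e1_left, norm_e1, one_mul] at this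
      simpa using this
    have h2 := sq_abs (z 0 - x 0)
    have h3 := abs_nonneg (z 0 - x 0)
    simp only [hq]
    nlinarith
  refine le_of_forall_pos_le_add fun ε hε => ?_
  have h1 := key (ε / (q z + 1)) (by positivity)
  have h2 : ε / (q z + 1) * q z ≤ ε := by
    rw [div_mul_eq_mul_div, div_le_iff₀ (by positivity)]
    nlinarith
  linarith

lemma latt_single (k : ℤ) : (latt (Pi.single 0 k) : Eu (m + 1)) = (k : ℝ) • e1 := by
  ext i
  unfold latt e1
  rcases eq_or_ne i 0 with rfl | hi
  · simp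
  · simp [hi]

/-- Viscosity solutions are unique up to constants. -/
theorem unique_solution {E : ℝ} (hE : 0 ≤ E) {w : Eu (m + 1) → ℝ}
    (hw : IsViscositySolution (GE E) E w) : ∃ C : ℝ, ∀ x, w x = vE E x + C := by
  set D : Eu (m + 1) → ℝ := fun y => w y - vE E y with hD
  have hc : Continuous D := hw.continuous.sub (contDiff_vE E).continuous
  have hp : IsPeriodic D := fun y k => by
    simp only [hD, hw.periodic y k, vE_periodic E y k]
  obtain ⟨x1, hx1⟩ := exists_forall_le_of_periodic hc hp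
  obtain ⟨x2, hx2⟩ := exists_forall_ge_of_periodic hc hp
  have hC : ∀ x, |D x| ≤ max |D x1| |D x2| := fun x =>
    abs_le_max_abs_abs (hx2 x) (hx1 x) |>.trans (le_of_eq (max_comm _ _))
  have hstar := star_of_sub hE hw
  have hmono := fun (x : Eu (m + 1)) (τ : ℝ) (hτ : 0 < τ) => star_mono hc hC hstar x hτ
  have hint : ∀ (x : Eu (m + 1)) (k : ℤ), D (x + (k : ℝ) • e1) = D x := by
    intro x k
    rw [← latt_single]
    exact hp x _
  have hinv : ∀ (x : Eu (m + 1)) (τ : ℝ), D (x + τ • e1) = D x := by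
    intro x τ
    apply le_antisymm
    · -- compare with x - k e1
      obtain ⟨k, hk⟩ := exists_nat_gt (-τ)
      have h1 := hmono (x - (k : ℝ) • e1) (τ + k) (by linarith)
      have h2 : x - (k : ℝ) • e1 + (τ + k) • e1 = x + τ • e1 := by
        rw [add_smul]
        abel
      have h3 : D (x - (k : ℝ) • e1) = D x := by
        have := hint x (-(k : ℤ))
        push_cast at this
        rw [neg_smul, ← sub_eq_add_neg] at this
        exact this
      rw [h2, h3] at h1
      exact h1
    · obtain ⟨k, hk⟩ := exists_nat_gt τ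
      have h1 := hmono (x + τ • e1) (k - τ) (by linarith)
      have h2 : x + τ • e1 + ((k : ℝ) - τ) • e1 = x + ((k : ℤ) : ℝ) • e1 := by
        rw [sub_smul]
        push_cast
        abel
      rw [h2, hint] at h1
      exact h1
  refine ⟨D 0, fun x => ?_⟩
  have h1 := star_const hc hC hinv hstar 0 x
  have h2 := star_const hc hC hinv hstar x 0
  have h3 : D x = D 0 := le_antisymm h1 h2
  have h4 : D x = w x - vE E x := rfl
  linarith

end Pool.Agent.W_MP_e5a79a_an
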