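import Mathlib
import Pool.Agent.W_MP_e5a79a_an.Visc

set_option autoImplicit false

/-!
The Lagrangian and the Peierls barrier of the shifted pendulum.
-/

namespace Pool.Agent.W_MP_e5a79a_an

open MeasureTheory Filter Topology

variable {m : ℕ}

lemma lagrangian_GE (E : ℝ) (x q : Eu (m + 1)) :
    lagrangian (GE E) x q = ‖q‖ ^ 2 / 2 - II E * q 0 + 2 * (Real.sin (Real.pi * x 0)) ^ 2 := by
  have hle : ∀ p : Eu (m + 1), inner ℝ p q - GE E x p ≤
      ‖q‖ ^ 2 / 2 - II E * q 0 + 2 * (Real.sin (Real.pi * x 0)) ^ 2 := by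
    intro p
    unfold GE
    have h1 : 0 ≤ ‖(p + II E • e1) - q‖ ^ 2 := by positivity
    rw [norm_sub_sq_real, inner_add_left, inner_smul_left, inner_e1_left] at h1
    simp only [conj_trivial] at h1
    linarith
  unfold lagrangian
  apply le_antisymm (ciSup_le hle)
  refine le_ciSup_of_le ⟨_, by rintro _ ⟨p, rfl⟩; exact hle p⟩ (q - II E • e1) ?_
  unfold GE
  rw [sub_add_cancel, inner_sub_left, inner_smul_left, inner_e1_left, real_inner_self_eq_norm_sq]
  simp only [conj_trivial]
  linarith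

lemma lagrangian_add {E : ℝ} (hE : 0 ≤ E) (x q : Eu (m + 1)) :
    lagrangian (GE E) x q + E = ‖q - aE E (x 0) • e1‖ ^ 2 / 2 + (aE E (x 0) - II E) * q 0 := by
  rw [lagrangian_GE, norm_sub_sq_real, inner_smul_right, inner_e1_right, norm_smul, norm_e1,
    Real.norm_eq_abs, mul_one, sq_abs, aE_sq hE]
  ring

/-- `vE` is Lipschitz -/
lemma vE_lipschitz {E : ℝ} (hE : 0 ≤ E) :
    ∃ K : NNReal, ∀ x y : Eu (m + 1), dist (vE E x) (vE E y) ≤ K * dist x y := by
  set B := Real.sqrt (2 * E + 4) + |II E| with hB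
  have hB0 : 0 ≤ B := by positivity
  have hlip : LipschitzWith (Real.toNNReal B) (fun s => Phi E s - II E * s) := by
    refine lipschitzWith_of_nnnorm_deriv_le (fun s => (hasDerivAt_profile E s).differentiableAt)
      fun s => ?_
    rw [(hasDerivAt_profile E s).deriv, ← NNReal.coe_le_coe, coe_nnnorm, Real.norm_eq_abs,
      Real.coe_toNNReal _ hB0]
    have h1 := aE_le hE s
    have h2 := aE_nonneg E s
    have h3 := abs_nonneg (II E)
    have h4 := le_abs_self (II E)
    have h5 := neg_abs_le (II E)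
    rw [abs_le]
    constructor <;> linarith
  refine ⟨Real.toNNReal B, fun x y => ?_⟩
  have h1 := hlip.dist_le_mul (x 0) (y 0)
  refine h1.trans ?_
  have h2 : dist (x 0) (y 0) ≤ dist x y := by
    rw [Real.dist_eq, dist_eq_norm]
    have := abs_real_inner_le_norm e1 (x - y)
    rw [inner_e1_left, norm_e1, one_mul] at this
    simpa using this
  exact mul_le_mul_of_nonneg_left h2 (NNReal.coe_nonneg _)

lemma ac_comp {X Y : Type*} [PseudoMetricSpace X] [PseudoMetricSpace Y] {γ : ℝ → X} {a b : ℝ}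
    (hγ : AbsolutelyContinuousOnInterval γ a b) {φ : X → Y} {K : NNReal}
    (hφ : ∀ x y, dist (φ x) (φ y) ≤ K * dist x y) :
    AbsolutelyContinuousOnInterval (fun s => φ (γ s)) a b := by
  unfold AbsolutelyContinuousOnInterval at *
  have h1 := hγ.const_mul (K : ℝ)
  rw [mul_zero] at h1
  refine squeeze_zero (fun E => Finset.sum_nonneg fun _ _ => dist_nonneg) (fun E => ?_) h1
  rw [Finset.mul_sum]
  exact Finset.sum_le_sum fun i _ => hφ _ _

/-- the action of a loop is nonnegative -/
lemma action_nonneg {E : ℝ} (hE : 0 ≤ E) {t : ℝ} (ht : 0 ≤ t) {x : Eu (m + 1)}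
    {γ : ℝ → Eu (m + 1)} (hγ : IsAdmissible (GE E) t x x γ) :
    0 ≤ ∫ s in (0 : ℝ)..t, (lagrangian (GE E) (γ s) (deriv γ s) + E) := by
  obtain ⟨K, hK⟩ := vE_lipschitz (m := m) hE
  have hac := ac_comp hγ.ac hK
  have hFTC := hac.integral_deriv_eq_sub
  obtain ⟨k, hk⟩ := hγ.finish
  rw [hk, hγ.start, vE_periodic, sub_self] at hFTC
  refine le_of_eq_of_le hFTC.symm ?_
  refine intervalIntegral.integral_mono_ae_restrict ht hac.intervalIntegrable_deriv
    (hγ.integrable.add intervalIntegrable_const) ?_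
  have hdiff := hγ.ac.boundedVariationOn.ae_differentiableAt_of_mem_uIcc
  rw [Filter.EventuallyLE, ae_restrict_iff' measurableSet_Icc]
  filter_upwards [hdiff] with s hs hst
  have hs' := hs (by rwa [Set.uIcc_of_le ht])
  have h1 : HasDerivAt (fun r => vE E (γ r)) ((aE E (γ s 0) - II E) * (deriv γ s) 0) s := by
    have h2 := (hasGradientAt_vE E (γ s)).hasFDerivAt.comp_hasDerivAt s hs'.hasDerivAt
    refine h2.congr_deriv ?_
    rw [InnerProductSpace.toDual_apply_apply, inner_smul_left, inner_e1_left]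
    simp
  rw [h1.deriv, lagrangian_add hE]
  have : 0 ≤ ‖deriv γ s - aE E (γ s 0) • e1‖ ^ 2 / 2 := by positivity
  linarith

lemma minAction_nonneg {E : ℝ} (hE : 0 ≤ E) {t : ℝ} (ht : 0 ≤ t) (x : Eu (m + 1)) :
    0 ≤ minAction (GE E) E t x x := by
  unfold minAction
  refine le_iInf₂ fun γ hγ => ?_
  exact_mod_cast action_nonneg hE ht hγ

/-- existence of long loops with small action -/
lemma exists_loop {E : ℝ} (hE : 0 ≤ E) (x : Eu (m + 1)) (M : ℕ) (hM : 1 ≤ M) :
    ∃ t : ℝ, (M : ℝ) / (Real.sqrt (2 * E + 4) + 1) ≤ t ∧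
      minAction (GE E) E t x x ≤ ((1 / (2 * M) : ℝ) : EReal) := by
  have hM' : (1 : ℝ) ≤ M := by exact_mod_cast hM
  have hM0 : (0 : ℝ) < M := by linarith
  set δ : ℝ := 1 / (M : ℝ) ^ 2 with hδ
  have hδ0 : 0 < δ := by positivity
  have hδ1 : δ ≤ 1 := by
    rw [hδ, div_le_one (by positivity)]
    nlinarith
  obtain ⟨g, hg, hg0, hgtau⟩ := exists_flow hE hδ0 (x 0)
  set t := tau E δ (x 0) (x 0 + M) with ht
  have hgt : g t = x 0 + M := hgtau _
  have hlow := tau_lower hE hδ0 (x := x 0) (y := x 0 + M) (by linarith)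
  have hup := tau_upper (E := E) hδ0 (x := x 0) (y := x 0 + M) (by linarith)
  rw [add_sub_cancel_left, ← ht] at hlow hup
  have ht0 : 0 ≤ t := le_trans (by positivity) hlow
  refine ⟨t, ?_, ?_⟩
  · refine le_trans ?_ hlow
    rw [div_eq_mul_inv]
    refine mul_le_mul_of_nonneg_left (inv_anti₀ (by positivity) (by linarith)) hM0.le
  -- the curve
  set γ : ℝ → Eu (m + 1) := fun s => x + (g s - x 0) • e1 with hγ
  have hγ0 : ∀ s, γ s 0 = g s := by
    intro s
    simp only [hγ]
    rw [add_smul_e1_zero]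
    ring
  have hderiv : ∀ s, HasDerivAt γ ((aE E (g s) + δ) • e1) s := by
    intro s
    exact (((hg s).sub_const (x 0)).smul_const e1).const_add x
  have hgc : Continuous g := continuous_iff_continuousAt.2 fun s => (hg s).continuousAt
  have hderiv' : deriv γ = fun s => (aE E (g s) + δ) • e1 := by
    ext1 s
    exact (hderiv s).deriv
  have hlag : ∀ s, lagrangian (GE E) (γ s) (deriv γ s) + E =
      δ ^ 2 / 2 + (aE E (g s) - II E) * (aE E (g s) + δ) := by
    intro s
    rw [lagrangian_add hE, hderiv', hγ0]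
    simp only
    rw [← sub_smul, add_sub_cancel_left, norm_smul, norm_e1, Real.norm_eq_abs, mul_one, sq_abs]
    simp [e1_apply_zero]
  have hlagc : Continuous fun s => lagrangian (GE E) (γ s) (deriv γ s) + E := by
    simp_rw [hlag]
    have := (continuous_aE E).comp hgc
    simp only [Function.comp_def] at this
    fun_prop
  have hadm : IsAdmissible (GE E) t x x γ := by
    refine ⟨?_, ?_, ?_, ?_⟩
    · have hc1 : ContDiff ℝ 1 γ := by
        rw [contDiff_one_iff_deriv]
        refine ⟨fun s => (hderiv s).differentiableAt, ?_⟩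
        rw [hderiv']
        exact (((continuous_aE E).comp hgc).add continuous_const).smul continuous_const
      exact hc1.contDiffOn.absolutelyContinuousOnInterval
    · simp [hγ, hg0]
    · refine ⟨Pi.single 0 (M : ℤ), ?_⟩
      rw [latt_single]
      simp [hγ, hgt]
    · have : Continuous fun s => lagrangian (GE E) (γ s) (deriv γ s) := by
        have h2 : (fun s => lagrangian (GE E) (γ s) (deriv γ s)) =
            fun s => (lagrangian (GE E) (γ s) (deriv γ s) + E) - E := by
          ext s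
          ring
        rw [h2]
        exact hlagc.sub continuous_const
      exact this.intervalIntegrable _ _
  have hact : ∫ s in (0 : ℝ)..t, (lagrangian (GE E) (γ s) (deriv γ s) + E) = δ ^ 2 / 2 * t := by
    have h1 : ∀ s ∈ Set.uIcc 0 t, HasDerivAt (fun s => δ ^ 2 / 2 * s +
        (Phi E (g s) - II E * g s)) (lagrangian (GE E) (γ s) (deriv γ s) + E) s := by
      intro s _
      rw [hlag]
      have h2 := (hasDerivAt_profile E (g s)).comp s (hg s)
      have h3 : HasDerivAt (fun s : ℝ => δ ^ 2 / 2 * s) (δ ^ 2 / 2) s := by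
        simpa using (hasDerivAt_id s).const_mul (δ ^ 2 / 2)
      exact h3.fun_add h2
    rw [intervalIntegral.integral_eq_sub_of_hasDerivAt h1 (hlagc.intervalIntegrable _ _)]
    have h4 := Phi_add_int E (x 0) (M : ℤ)
    push_cast at h4
    rw [hgt, hg0, h4]
    ring
  refine (iInf₂_le γ hadm).trans ?_
  rw [hact]
  rw [EReal.coe_le_coe_iff]
  have h5 : δ ^ 2 / 2 * t ≤ δ ^ 2 / 2 * (M * δ⁻¹) := mul_le_mul_of_nonneg_left hup (by positivity)
  refine h5.trans (le_of_eq ?_)
  rw [hδ]
  field_simp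

/-- The projected Aubry set is the whole torus. -/
theorem aubry_GE {E : ℝ} (hE : 0 ≤ E) :
    aubry (GE E : Eu (m + 1) → Eu (m + 1) → ℝ) E = Set.univ := by
  refine Set.eq_univ_of_forall fun x => ?_
  change peierls (GE E) E x x = 0
  apply le_antisymm
  · refine le_of_forall_gt_imp_ge_of_dense fun a ha => ?_
    obtain ⟨ε, hε0, hεa⟩ := EReal.lt_iff_exists_real_btwn.1 ha
    have hε0' : 0 < ε := by exact_mod_cast hε0
    unfold peierls
    refine liminf_le_of_frequently_le' ?_
    rw [frequently_atTop]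
    intro T
    set B := Real.sqrt (2 * E + 4) + 1 with hB
    have hB0 : 0 < B := by positivity
    obtain ⟨M1, hM1⟩ := exists_nat_gt (T * B)
    obtain ⟨M2, hM2⟩ := exists_nat_gt (1 / ε)
    obtain ⟨t, ht1, ht2⟩ := exists_loop hE x (M1 + M2 + 1) (by omega)
    refine ⟨t, ?_, ht2.trans (le_trans ?_ hεa.le)⟩
    · refine le_trans ?_ ht1
      rw [le_div_iff₀ hB0]
      push_cast
      have : (0 : ℝ) ≤ M2 := by positivity
      linarith
    · rw [EReal.coe_le_coe_iff, div_le_iff₀ (by positivity)]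
      rw [div_lt_iff₀ hε0'] at hM2
      push_cast
      have : (0 : ℝ) ≤ M1 := by positivity
      nlinarith
  · unfold peierls
    refine le_liminf_of_le (by isBoundedDefault) ?_
    filter_upwards [eventually_ge_atTop 0] with t ht
    exact minAction_nonneg hE ht x

end Pool.Agent.W_MP_e5a79a_an
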