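import Mathlib
import Pool.Agent.W_MP_e5a79a_an.Peierls

set_option autoImplicit false

/-!
The counterexample.
-/

namespace Pool.Agent.W_MP_e5a79a_an

open MeasureTheory Filter Topology

variable {m : ℕ}

lemma isTonelli_GE : IsTonelli (GE 0 : Eu (m + 1) → Eu (m + 1) → ℝ) := by
  refine ⟨?_, ?_, ?_, ?_⟩
  · intro p x k
    simp only [GE]
    rw [PiLp.add_apply, latt_zero]
    have h1 : (Real.sin (Real.pi * (x 0 + (k 0 : ℝ)))) ^ 2 = (Real.sin (Real.pi * x 0)) ^ 2 := by
      have h2 := aE_sq le_rfl (x 0 + (k 0 : ℝ))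
      have h3 := aE_sq le_rfl (x 0)
      rw [aE_add_int] at h2
      linarith
    rw [h1]
  · have c1 : ContDiff ℝ (⊤ : ℕ∞) fun z : Eu (m + 1) × Eu (m + 1) => z.1 0 :=
      (EuclideanSpace.proj (0 : Fin (m + 1)) : Eu (m + 1) →L[ℝ] ℝ).contDiff.comp contDiff_fst
    have c2 : ContDiff ℝ (⊤ : ℕ∞)
        fun z : Eu (m + 1) × Eu (m + 1) => ‖z.2 + II 0 • (e1 : Eu (m + 1))‖ ^ 2 :=
      (contDiff_snd.add contDiff_const).norm_sq ℝ
    have c3 : ContDiff ℝ (⊤ : ℕ∞) fun z : Eu (m + 1) × Eu (m + 1) =>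
        Real.sin (Real.pi * z.1 0) := Real.contDiff_sin.comp (contDiff_const.mul c1)
    exact (c2.div_const 2).sub (contDiff_const.mul (c3.pow 2))
  · intro x p v hv
    set a := p + II 0 • (e1 : Eu (m + 1)) with ha
    have hf : (fun t : ℝ => GE 0 x (p + t • v)) = fun t : ℝ =>
        (‖a‖ ^ 2 + 2 * (t * inner ℝ a v) + t ^ 2 * ‖v‖ ^ 2) / 2 -
          2 * (Real.sin (Real.pi * x 0)) ^ 2 := by
      ext t
      unfold GE
      have h1 : p + t • v + II 0 • e1 = a + t • v := by
        rw [ha]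
        abel
      rw [h1, norm_add_sq_real, inner_smul_right, norm_smul, mul_pow, Real.norm_eq_abs, sq_abs]
    have hd1 : ∀ t : ℝ, HasDerivAt (fun t : ℝ => GE 0 x (p + t • v))
        (inner ℝ a v + t * ‖v‖ ^ 2) t := by
      intro t
      rw [hf]
      have h1 : HasDerivAt (fun t : ℝ => 2 * (t * inner ℝ a v)) (2 * inner ℝ a v) t := by
        simpa using ((hasDerivAt_id t).mul_const (inner ℝ a v)).const_mul 2
      have h2 : HasDerivAt (fun t : ℝ => t ^ 2 * ‖v‖ ^ 2) (2 * t * ‖v‖ ^ 2) t := by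
        have := ((hasDerivAt_id t).fun_pow 2).mul_const (‖v‖ ^ 2)
        simpa using this
      have h3 := (((h1.const_add (‖a‖ ^ 2)).fun_add h2).div_const 2).sub_const
        (2 * (Real.sin (Real.pi * x 0)) ^ 2)
      refine h3.congr_deriv ?_
      ring
    have hd2 : deriv (fun t : ℝ => GE 0 x (p + t • v)) = fun t => inner ℝ a v + t * ‖v‖ ^ 2 := by
      ext t
      exact (hd1 t).deriv
    rw [iteratedDeriv_succ, iteratedDeriv_one, hd2]
    have hd3 : HasDerivAt (fun t : ℝ => inner ℝ a v + t * ‖v‖ ^ 2) (‖v‖ ^ 2) 0 := by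
      simpa using ((hasDerivAt_id (0 : ℝ)).mul_const (‖v‖ ^ 2)).const_add (inner ℝ a v)
    rw [hd3.deriv]
    have : 0 < ‖v‖ := norm_pos_iff.2 hv
    positivity
  · intro A
    refine ⟨|A| * |II 0| + A ^ 2 / 2 + 2, fun x p => ?_⟩
    unfold GE
    set N := ‖p + II 0 • (e1 : Eu (m + 1))‖ with hN
    have h1 : ‖p‖ ≤ N + |II 0| := by
      have h2 := norm_sub_le (p + II 0 • (e1 : Eu (m + 1))) (II 0 • e1)
      rw [add_sub_cancel_right, norm_smul, norm_e1, mul_one, Real.norm_eq_abs] at h2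
      exact h2
    have h2 : A * ‖p‖ ≤ |A| * ‖p‖ := mul_le_mul_of_nonneg_right (le_abs_self A) (norm_nonneg p)
    have h3 : |A| * ‖p‖ ≤ |A| * (N + |II 0|) := mul_le_mul_of_nonneg_left h1 (abs_nonneg A)
    have h4 := Real.sin_sq_le_one (Real.pi * x 0)
    have h5 : 0 ≤ (N - |A|) ^ 2 := by positivity
    have h6 := sq_abs A
    nlinarith

lemma twist_zero (H : Eu (m + 1) → Eu (m + 1) → ℝ) : twist H 0 = H := by
  ext x p
  simp [twist]

lemma twist_GE (E : ℝ) : twist (GE 0 : Eu (m + 1) → Eu (m + 1) → ℝ) ((II 0 - II E) • e1) =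
    GE E := by
  ext x p
  unfold twist GE
  have : p - (II 0 - II E) • e1 + II 0 • e1 = p + II E • (e1 : Eu (m + 1)) := by
    rw [sub_smul]
    abel
  rw [this]

/-- lower bound for the Lipschitz norm -/
lemma two_le_lipNorm {s : ℝ} (hs0 : 0 < s) (hs1 : s ≤ 1 / 2) {f : Eu (m + 1) → Eu (m + 1)}
    (hf : ∀ x, f x = ((aE (2 * (Real.sin (Real.pi * s)) ^ 2) (x 0) -
      II (2 * (Real.sin (Real.pi * s)) ^ 2)) - (aE 0 (x 0) - II 0)) • e1) :
    ENNReal.ofReal 2 ≤ lipNorm Set.univ f := by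
  set E := 2 * (Real.sin (Real.pi * s)) ^ 2 with hE
  have hπ := Real.pi_pos
  have hsin : 2 * s ≤ Real.sin (Real.pi * s) := by
    have := Real.mul_le_sin (x := Real.pi * s) (by positivity) (by nlinarith)
    have h2 : 2 / Real.pi * (Real.pi * s) = 2 * s := by
      field_simp
    linarith
  set b := 2 * Real.sin (Real.pi * s) with hb
  have hb0 : 0 < b := by linarith
  have e0 : aE E 0 = b := by
    unfold aE
    rw [mul_zero, Real.sin_zero, hE, show (2 * (2 * Real.sin (Real.pi * s) ^ 2) + 4 * 0 ^ 2 : ℝ) =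
      b ^ 2 by rw [hb]; ring, Real.sqrt_sq hb0.le]
  have e1' : aE 0 0 = 0 := by
    unfold aE
    simp
  have e2 : aE 0 s = b := by
    rw [aE_zero, abs_of_pos (by linarith)]
  have e3 : aE E s ≤ 3 / 2 * b := by
    unfold aE
    rw [Real.sqrt_le_left (by positivity), hE, hb]
    nlinarith [sq_nonneg (Real.sin (Real.pi * s))]
  set y : Eu (m + 1) := s • e1 with hy
  have hy0 : y 0 = s := by simp [hy, e1_apply_zero]
  have hdiff : f 0 - f y = ((aE E 0 - aE 0 0) - (aE E s - aE 0 s)) • e1 := by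
    rw [hf, hf, hy0, ← sub_smul]
    congr 1
    simp only [PiLp.zero_apply]
    ring
  have hnorm : 2 * s ≤ ‖f 0 - f y‖ := by
    rw [hdiff, norm_smul, norm_e1, mul_one, e0, e1', e2, Real.norm_eq_abs]
    refine le_trans ?_ (le_abs_self _)
    linarith
  have hdist : torusDist (0 : Eu (m + 1)) y ≤ s := by
    unfold torusDist
    refine (ciInf_le ⟨0, ?_⟩ 0).trans ?_
    · rintro _ ⟨k, rfl⟩
      exact norm_nonneg _
    · have h1 : (latt 0 : Eu (m + 1)) = 0 := by
        ext i
        simp [latt]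
      rw [h1, add_zero, zero_sub, norm_neg, hy, norm_smul, norm_e1, mul_one, Real.norm_eq_abs,
        abs_of_pos hs0]
  have hne : ∀ k : Fin (m + 1) → ℤ, (0 : Eu (m + 1)) ≠ y + latt k := by
    intro k hk
    have h1 := congrArg (fun z : Eu (m + 1) => z 0) hk
    simp only [PiLp.zero_apply, PiLp.add_apply, latt_zero, hy0] at h1
    have h2 : (k 0 : ℝ) = -s := by linarith
    have h3 : (-1 : ℝ) < k 0 := by rw [h2]; linarith
    have h4 : (k 0 : ℝ) < 0 := by rw [h2]; linarith
    have h5 : (-1 : ℤ) < k 0 := by exact_mod_cast h3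
    have h6 : k 0 < 0 := by exact_mod_cast h4
    omega
  unfold lipNorm
  refine le_add_left ?_
  refine le_trans ?_ (le_iSup₂_of_le (0 : Eu (m + 1)) (Set.mem_univ _)
    (le_iSup₂_of_le y (Set.mem_univ _) (le_iSup_of_le hne le_rfl)))
  have hnum : ‖f 0 - f y‖ₑ = ENNReal.ofReal ‖f 0 - f y‖ := (ofReal_norm _).symm
  rw [hnum]
  rw [ENNReal.le_div_iff_mul_le (Or.inr ?_) (Or.inl ENNReal.ofReal_ne_top)]
  · rw [← ENNReal.ofReal_mul (by norm_num)]
    exact ENNReal.ofReal_le_ofReal (by linarith)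
  · have : 0 < ‖f 0 - f y‖ := by linarith
    simpa using this

theorem main (m : ℕ) :
    ∃ (H : Eu (m + 1) → Eu (m + 1) → ℝ) (α₀ : ℝ) (u : Eu (m + 1) → ℝ),
      IsTonelli H ∧
      IsCriticalValue (twist H 0) α₀ ∧
      aubry (twist H 0) α₀ = Set.univ ∧
      IsViscositySolution (twist H 0) α₀ u ∧
      (∀ w : Eu (m + 1) → ℝ, IsViscositySolution (twist H 0) α₀ w → ∃ C : ℝ, ∀ x, w x = u x + C) ∧
      ∃ (ε : ℝ) (c : ℕ → Eu (m + 1)) (α : ℕ → ℝ),
        0 < ε ∧ (∀ j, c j ≠ 0) ∧ Tendsto c atTop (𝓝 0) ∧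
        (∀ j, IsCriticalValue (twist H (c j)) (α j)) ∧
        ∀ (j : ℕ) (v : Eu (m + 1) → ℝ), IsViscositySolution (twist H (c j)) (α j) v →
          ENNReal.ofReal ε ≤ lipNorm (aubry (twist H (c j)) (α j))
            (fun x => gradient v x - gradient u x) := by
  set s : ℕ → ℝ := fun j => 1 / ((j : ℝ) + 2) with hs
  have hs0 : ∀ j, 0 < s j := fun j => by positivity
  have hs1 : ∀ j, s j ≤ 1 / 2 := fun j => by
    simp only [hs]
    apply div_le_div_of_nonneg_left (by norm_num) (by norm_num)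
    have : (0 : ℝ) ≤ j := Nat.cast_nonneg j
    linarith
  set En : ℕ → ℝ := fun j => 2 * (Real.sin (Real.pi * s j)) ^ 2 with hEn
  have hsinpos : ∀ j, 0 < Real.sin (Real.pi * s j) := fun j => by
    have hπ := Real.pi_pos
    apply Real.sin_pos_of_pos_of_lt_pi
    · exact mul_pos hπ (hs0 j)
    · nlinarith [hs1 j]
  have hEn0 : ∀ j, 0 < En j := fun j => by
    have := hsinpos j
    simp only [hEn]
    positivity
  refine ⟨GE 0, 0, vE 0, isTonelli_GE, ?_, ?_, ?_, ?_, 2, fun j => (II 0 - II (En j)) • e1, En,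
    by norm_num, ?_, ?_, ?_, ?_⟩
  · rw [twist_zero]
    exact isCriticalValue_GE le_rfl
  · rw [twist_zero]
    exact aubry_GE le_rfl
  · rw [twist_zero]
    exact isViscositySolution_vE le_rfl
  · intro w hw
    rw [twist_zero] at hw
    exact unique_solution le_rfl hw
  · intro j hj
    have h1 := II_lt (hEn0 j)
    rw [smul_eq_zero] at hj
    rcases hj with hj | hj
    · linarith
    · have := norm_e1 (m := m)
      rw [hj, norm_zero] at this
      norm_num at this
  · have hst : Tendsto s atTop (𝓝 0) := by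
      have h1 : Tendsto (fun j : ℕ => (j : ℝ) + 2) atTop atTop :=
        tendsto_atTop_add_const_right _ _ tendsto_natCast_atTop_atTop
      refine h1.inv_tendsto_atTop.congr fun j => ?_
      simp [hs]
    have hEt : Tendsto (fun j => Real.sqrt (2 * En j)) atTop (𝓝 0) := by
      have hc : Continuous fun r : ℝ => Real.sqrt (2 * (2 * (Real.sin (Real.pi * r)) ^ 2)) := by
        fun_prop
      have h2 := (hc.tendsto 0).comp hst
      have h3 : Real.sqrt (2 * (2 * (Real.sin (Real.pi * 0)) ^ 2)) = 0 := by simp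
      rw [h3] at h2
      exact h2
    have hIt : Tendsto (fun j => II 0 - II (En j)) atTop (𝓝 0) := by
      rw [tendsto_zero_iff_abs_tendsto_zero]
      refine squeeze_zero (fun j => abs_nonneg _) (fun j => ?_) hEt
      have h1 := II_lt (hEn0 j)
      have h2 := II_le (hEn0 j).le
      simp only [Function.comp_apply]
      rw [abs_le]
      constructor <;> linarith
    have := hIt.smul_const (e1 : Eu (m + 1))
    simpa using this
  · intro j
    rw [twist_GE]
    exact isCriticalValue_GE (hEn0 j).le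
  · intro j v hv
    rw [twist_GE] at hv ⊢
    rw [aubry_GE (hEn0 j).le]
    obtain ⟨C, hC⟩ := unique_solution (hEn0 j).le hv
    refine two_le_lipNorm (hs0 j) (hs1 j) fun x => ?_
    have hv' : v = fun x => vE (En j) x + C := funext hC
    have hg : gradient v x = (aE (En j) (x 0) - II (En j)) • e1 := by
      rw [hv']
      have h1 := hasGradientAt_add' (hasGradientAt_vE (En j) x)
        (hasGradientAt_const (𝕜 := ℝ) x C)
      rw [add_zero] at h1
      exact h1.gradient
    rw [hg, gradient_vE, ← sub_smul]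

end Pool.Agent.W_MP_e5a79a_an
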